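import Pool.Agent.H200G.Stm2

/-! Project GR of helper200: job GR-LEAF (GR10 and GR11). -/

set_option autoImplicit false

namespace Pool.Agent.Q66.GR

open Finset Pool.Agent.TH176.Nag Pool.Agent.TH603.Sur Pool.Agent.TH2.NU Pool.Agent.TH641.UM
open Pool.Agent.Y205.FW Pool.Agent.Y205.MD Pool.Agent.H200W Pool.Agent.H200P Pool.Agent.H200C
open Pool.Agent.H200G

theorem XX_succ (K : Multiset ℕ) (f : ℕ) : XX K (f + 1) = XX K f + 2 * ((f : ℝ) + 2) := by
  have h1 := Q111.WR.card_real p_card (M1 := 0) (M2 := 0) (M3 := 0) (n := f) le_rfl le_rfl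
    (by omega)
  have h2 := Q111.WR.card_real p_card (M1 := 0) (M2 := 0) (M3 := 0) (n := f + 1) le_rfl le_rfl
    (by omega)
  unfold XX
  rw [h1, h2]
  push_cast
  ring

theorem condM_add' (K F : Multiset ℕ) :
    TH2.NU.condM (K + F) = TH2.NU.condM K + TH2.NU.condM F := by
  unfold TH2.NU.condM
  rw [Multiset.map_add, Multiset.sum_add]

/-- **Job GR-LEAF (GR10).** -/
theorem leafG : S_LeafG := by
  intro d K F s e Z Λ hΛ hS hE hZ hex
  by_cases c1 : XX K d + Λ d ≤ e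
  · left
    exact Q111.WR.crkM_zero (hE c1)
  right
  by_cases c2 : s ≤ XX K d - Λ d
  · left
    exact Q111.WR.crkM_sur (hS d le_rfl c2)
  right
  push Not at c1 c2
  have hZd := hZ d le_rfl c2
  have hd0 : (0 : ℝ) ≤ d := Nat.cast_nonneg _
  refine ⟨by linarith, ?_⟩
  classical
  have hex' : ∃ k, s ≤ XX K (d + k + 1) - Λ (d + k + 1) := by
    obtain ⟨f, hf, hf2⟩ := hex
    obtain ⟨k, rfl⟩ := Nat.exists_eq_add_of_lt hf
    exact ⟨k, hf2⟩
  obtain ⟨k, hk, hmin⟩ : ∃ k, s ≤ XX K (d + k + 1) - Λ (d + k + 1) ∧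
      ∀ j < k, ¬ s ≤ XX K (d + j + 1) - Λ (d + j + 1) :=
    ⟨Nat.find hex', Nat.find_spec hex', fun j hj => Nat.find_min hex' hj⟩
  have hlow : XX K (d + k) - Λ (d + k) < s := by
    rcases Nat.eq_zero_or_pos k with hk0 | hk0
    · subst hk0
      exact c2
    · obtain ⟨j, rfl⟩ := Nat.exists_eq_succ_of_ne_zero hk0.ne'
      have := hmin j (Nat.lt_succ_self j)
      push Not at this
      exact this
  have hZk := hZ (d + k) (Nat.le_add_right d k) hlow
  have hsur := hS (d + k + 1) (by omega) hk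
  have h1 := Q111.WR.crkM_sur hsur
  have h2 := Q111.WR.crkM_mono (Q111.WR.HX_mono (M1 := 0) (M2 := 0) (M3 := 0)
    (show d ≤ d + k + 1 by omega)) (K + F)
  have h3 : ((crkM (HX 0 0 0 d) (K + F) : ℕ) : ℝ) + (TH2.NU.condM (K + F) : ℝ) ≤
      ((HX 0 0 0 (d + k + 1)).card : ℝ) := by
    exact_mod_cast (Nat.add_le_add_right h2 _).trans h1
  rw [condM_add'] at h3
  push_cast at h3
  have h4 := XX_succ K (d + k)
  have h5 : XX K (d + k + 1) = 2 * ((HX 0 0 0 (d + k + 1)).card : ℝ) - 2 * (TH2.NU.condM K : ℝ) := rfl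
  linarith

/-- **Job GR-LEAF (GR11).** -/
theorem numG : S_NumG := by
  intro d K F w G0 G1 W s e Z hcd hgain key hs he
  rw [condM_add']
  unfold Tri3 at key
  rw [condM_add'] at key
  set cK := TH2.NU.condM K with hcK
  set cF := TH2.NU.condM F with hcF
  set cw := TH2.NU.condM w with hcw
  set X := (HX 0 0 0 d).card with hX
  set c := crkM (HX 0 0 0 d) (K + F) with hc
  rcases key with k1 | k1 | ⟨k1, k2⟩
  · rw [k1]; exact Nat.zero_le _
  · omega
  have hcd' : (cF : ℝ) + G0 = cw + G1 := by exact_mod_cast hcd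
  have hgain' : 15 * (W : ℝ) ≤ 32 * ((G0 : ℝ) + G1) := by exact_mod_cast hgain
  have hW0 : (0 : ℝ) ≤ W := Nat.cast_nonneg _
  have k1' : e - Z < 2 * (X : ℝ) - 2 * (cK : ℝ) := k1
  by_cases hG : c ≤ G0
  · omega
  · push Not at hG
    have e0 : (G0 : ℝ) < c := by exact_mod_cast hG
    have e3 : c + (cK + cw) < X + G0 ∨ c + (cK + cw) ≤ X + G0 := by
      right
      exact_mod_cast (by linarith : (c : ℝ) + ((cK : ℝ) + cw) ≤ X + G0)
    omega

end Pool.Agent.Q66.GR
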