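import Pool.Agent.H200G.Stm

/-! Project GR of helper200: job GR-UNITS (GR9). Copy of Pool/Agent/Q53/WR/Attach.lean with more information
about the items. -/

set_option autoImplicit false

namespace Pool.Agent.Q66.GR

open Finset Pool.Agent.TH176.Nag Pool.Agent.TH603.Sur Pool.Agent.TH2.NU Pool.Agent.TH641.UM
open Pool.Agent.Y205.FW Pool.Agent.Y205.MD Pool.Agent.H200W Pool.Agent.H200P Pool.Agent.H200C
open Pool.Agent.H200G

theorem single_It {h : ℝ} (hh : 256 ≤ h) {N a : ℕ} (hx : Q53.WR.BP h (N, a)) :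
    It h (Multiset.replicate N a, N * ((a : ℝ) + 1) ^ 2 + 2 * h, N * (a : ℝ) ^ 2 - 1) ∧
    N * ((a : ℝ) + 1) ^ 2 + 2 * h ≤ N * ((a : ℝ) + 1) ^ 2 + (N : ℝ) * ((a : ℝ) + 1) / 2 ∧
    N * (a : ℝ) ^ 2 ≤ N * (a : ℝ) ^ 2 - 1 + (N : ℝ) * ((a : ℝ) + 1) / 2 := by
  obtain ⟨u1, u2, u3, u4, u5, u6, u7, u8⟩ := Q53.WR.single_unit p_blockS p_blockE (by linarith) hx
  obtain ⟨h1, h2, h3, h4⟩ := hx
  simp only at h1 h2 h3 h4
  have ha : (16 : ℝ) ≤ a := by exact_mod_cast h1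
  have hN : (0 : ℝ) ≤ N := Nat.cast_nonneg _
  have h6 : (N : ℝ) * (a : ℝ) ^ 2 = N * a * a := by ring
  have h7 : 1024 * 16 ≤ (N : ℝ) * a * a := by
    have : 1024 ≤ (N : ℝ) * a := by linarith
    exact mul_le_mul this ha (by norm_num) (by linarith)
  have h8 : (N : ℝ) * (a : ℝ) ^ 2 ≤ N * ((a : ℝ) + 1) ^ 2 := by
    apply mul_le_mul_of_nonneg_left _ hN
    apply pow_le_pow_left₀ (by linarith)
    linarith
  have h9 : (N : ℝ) * ((a : ℝ) + 1) ^ 2 ≤ 289 / 256 * ((N : ℝ) * (a : ℝ) ^ 2) := by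
    have e1 : ((a : ℝ) + 1) ^ 2 ≤ (17 / 16 * (a : ℝ)) ^ 2 := by
      apply pow_le_pow_left₀ (by linarith)
      linarith
    have e2 := mul_le_mul_of_nonneg_left e1 hN
    calc (N : ℝ) * ((a : ℝ) + 1) ^ 2 ≤ N * (17 / 16 * (a : ℝ)) ^ 2 := e2
      _ = _ := by ring
  have h10 : 2 * h ≤ (N : ℝ) * (a : ℝ) ^ 2 / 32 := by
    have e1 : (N : ℝ) * a * 16 ≤ (N : ℝ) * a * a := mul_le_mul_of_nonneg_left ha (by linarith)
    rw [h6]
    linarith
  refine ⟨⟨u1, u2, u5, u6, ?_, ?_⟩, u7, u8⟩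
  · show (N : ℝ) * (a : ℝ) ^ 2 - 1 ≤ N * ((a : ℝ) + 1) ^ 2 + 2 * h
    linarith
  · show (N : ℝ) * ((a : ℝ) + 1) ^ 2 + 2 * h ≤ 5 / 4 * (N * (a : ℝ) ^ 2 - 1)
    linarith

theorem rare_It {h : ℝ} (hh : 256 ≤ h) {N u k l : ℕ}
    (hx : Q53.WR.BP h (N, u)) (hN : 256 * h ^ 2 ≤ N * (u : ℝ) ^ 2)
    (hy : 1 ≤ k ∧ 1 ≤ l ∧ 16 * ((l : ℝ) + 1) ≤ h ∧ k * ((l : ℝ) + 1) ≤ 256 * h) :
    It h (Multiset.replicate N u + Multiset.replicate k l,
      N * ((u : ℝ) + 1) ^ 2 + k * ((l : ℝ) + 1) ^ 2 + 4 * h,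
      N * (u : ℝ) ^ 2 + k * (l : ℝ) ^ 2 - 1) ∧
    N * ((u : ℝ) + 1) ^ 2 + k * ((l : ℝ) + 1) ^ 2 + 4 * h ≤
      N * ((u : ℝ) + 1) ^ 2 + k * ((l : ℝ) + 1) ^ 2 + (N : ℝ) * ((u : ℝ) + 1) / 2 ∧
    N * (u : ℝ) ^ 2 + k * (l : ℝ) ^ 2 ≤ N * (u : ℝ) ^ 2 + k * (l : ℝ) ^ 2 - 1 +
      (N : ℝ) * ((u : ℝ) + 1) / 2 := by
  obtain ⟨u1, u2, u3, u4, u5, u6, u7, u8⟩ :=
    Q53.WR.rare_unit p_rareS p_rareE (by linarith) hx hN hy
  obtain ⟨h1, h2, h3, h4⟩ := hx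
  simp only at h1 h2 h3 h4
  obtain ⟨y1, y2, y3, y4⟩ := hy
  have hu : (16 : ℝ) ≤ u := by exact_mod_cast h1
  have hN0 : (0 : ℝ) ≤ N := Nat.cast_nonneg _
  have hk0 : (0 : ℝ) ≤ k := Nat.cast_nonneg _
  have hl0 : (0 : ℝ) ≤ l := Nat.cast_nonneg _
  have h6 : (N : ℝ) * (u : ℝ) ^ 2 = N * u * u := by ring
  have h8 : (N : ℝ) * (u : ℝ) ^ 2 ≤ N * ((u : ℝ) + 1) ^ 2 := by
    apply mul_le_mul_of_nonneg_left _ hN0
    apply pow_le_pow_left₀ (by linarith)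
    linarith
  have h9 : (N : ℝ) * ((u : ℝ) + 1) ^ 2 ≤ 289 / 256 * ((N : ℝ) * (u : ℝ) ^ 2) := by
    have e1 : ((u : ℝ) + 1) ^ 2 ≤ (17 / 16 * (u : ℝ)) ^ 2 := by
      apply pow_le_pow_left₀ (by linarith)
      linarith
    have e2 := mul_le_mul_of_nonneg_left e1 hN0
    calc (N : ℝ) * ((u : ℝ) + 1) ^ 2 ≤ N * (17 / 16 * (u : ℝ)) ^ 2 := e2
      _ = _ := by ring
  have h10 : (k : ℝ) * ((l : ℝ) + 1) ^ 2 ≤ 16 * h ^ 2 := by
    have e : (k : ℝ) * ((l : ℝ) + 1) ^ 2 = k * (l + 1) * (l + 1) := by ring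
    have e2 : (k : ℝ) * (l + 1) * (l + 1) ≤ 256 * h * (h / 16) :=
      mul_le_mul y4 (by linarith) (by linarith) (by linarith)
    rw [e]
    calc (k : ℝ) * (l + 1) * (l + 1) ≤ 256 * h * (h / 16) := e2
      _ = 16 * h ^ 2 := by ring
  have h11 : (k : ℝ) * (l : ℝ) ^ 2 ≤ k * ((l : ℝ) + 1) ^ 2 := by
    apply mul_le_mul_of_nonneg_left _ hk0
    apply pow_le_pow_left₀ hl0
    linarith
  have h12 : 0 ≤ (k : ℝ) * (l : ℝ) ^ 2 := by positivity
  have h13 : 8 * h ≤ (N : ℝ) * u := by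
    by_contra hc
    push Not at hc
    have e2 : (N : ℝ) * u * u ≤ 8 * h * (h / 16) :=
      mul_le_mul hc.le (by linarith) (by linarith) (by linarith)
    have e3 : 8 * h * (h / 16) = h ^ 2 / 2 := by ring
    have e4 : 0 < h ^ 2 := by positivity
    linarith
  have h14 : 4 * h ≤ (N : ℝ) * (u : ℝ) ^ 2 / 32 := by
    have e1 : (N : ℝ) * u * 16 ≤ (N : ℝ) * u * u := mul_le_mul_of_nonneg_left hu (by linarith)
    rw [h6]
    linarith
  have h15 : (256 : ℝ) * 256 ≤ h ^ 2 := by nlinarith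
  refine ⟨⟨u1, u2, u5, u6, ?_, ?_⟩, u7, u8⟩
  · show (N : ℝ) * (u : ℝ) ^ 2 + k * (l : ℝ) ^ 2 - 1 ≤
      N * ((u : ℝ) + 1) ^ 2 + k * ((l : ℝ) + 1) ^ 2 + 4 * h
    linarith
  · show (N : ℝ) * ((u : ℝ) + 1) ^ 2 + k * ((l : ℝ) + 1) ^ 2 + 4 * h ≤
      5 / 4 * (N * (u : ℝ) ^ 2 + k * (l : ℝ) ^ 2 - 1)
    linarith

theorem attachR {h : ℝ} (B C R : List (ℕ × ℕ)) (hh : 256 ≤ h)
    (hBC : ∀ x ∈ B ++ C, Q53.WR.BP h x) (hB : ∀ x ∈ B, 256 * h ^ 2 ≤ x.1 * (x.2 : ℝ) ^ 2)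
    (hR : ∀ x ∈ R, 1 ≤ x.1 ∧ 1 ≤ x.2 ∧ 16 * ((x.2 : ℝ) + 1) ≤ h ∧ x.1 * ((x.2 : ℝ) + 1) ≤ 256 * h)
    (hlen : R.length ≤ B.length) : ∃ L : List (Multiset ℕ × ℝ × ℝ),
      (∀ x ∈ L, It h x) ∧
      (L.map fun x => x.1).sum = ((B ++ C).map fun x => Multiset.replicate x.1 x.2).sum +
        (R.map fun x => Multiset.replicate x.1 x.2).sum ∧
      (L.map fun x => x.2.1).sum ≤ ((B ++ C).map fun x => (x.1 : ℝ) * ((x.2 : ℝ) + 1) ^ 2).sum +
        ((B ++ C).map fun x => (x.1 : ℝ) * ((x.2 : ℝ) + 1) / 2).sum +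
        (R.map fun x => (x.1 : ℝ) * ((x.2 : ℝ) + 1) ^ 2).sum ∧
      ((B ++ C).map fun x => (x.1 : ℝ) * (x.2 : ℝ) ^ 2).sum +
        (R.map fun x => (x.1 : ℝ) * (x.2 : ℝ) ^ 2).sum ≤
        (L.map fun x => x.2.2).sum +
          ((B ++ C).map fun x => (x.1 : ℝ) * ((x.2 : ℝ) + 1) / 2).sum := by
  have key0 : ∀ D : List (ℕ × ℕ), (∀ x ∈ D, Q53.WR.BP h x) → ∃ L : List (Multiset ℕ × ℝ × ℝ),
      (∀ x ∈ L, It h x) ∧
      (L.map fun x => x.1).sum = (D.map fun x => Multiset.replicate x.1 x.2).sum ∧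
      (L.map fun x => x.2.1).sum ≤ (D.map fun x => (x.1 : ℝ) * ((x.2 : ℝ) + 1) ^ 2).sum +
        (D.map fun x => (x.1 : ℝ) * ((x.2 : ℝ) + 1) / 2).sum ∧
      (D.map fun x => (x.1 : ℝ) * (x.2 : ℝ) ^ 2).sum ≤
        (L.map fun x => x.2.2).sum + (D.map fun x => (x.1 : ℝ) * ((x.2 : ℝ) + 1) / 2).sum := by
    intro D hD
    induction D with
    | nil => exact ⟨[], by simp, by simp, by simp, by simp⟩
    | cons y D ih =>
      obtain ⟨L, l1, l2, l3, l4⟩ := ih fun x hx => hD x (List.mem_cons_of_mem _ hx)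
      obtain ⟨N, a⟩ := y
      obtain ⟨u1, u7, u8⟩ := single_It hh (hD (N, a) (by simp))
      refine ⟨(Multiset.replicate N a, N * ((a : ℝ) + 1) ^ 2 + 2 * h, N * (a : ℝ) ^ 2 - 1) :: L,
        ?_, ?_, ?_, ?_⟩
      · intro x hx
        rcases List.mem_cons.1 hx with rfl | hx
        · exact u1
        · exact l1 x hx
      · simp only [List.map_cons, List.sum_cons, l2]
      · simp only [List.map_cons, List.sum_cons]
        linarith
      · simp only [List.map_cons, List.sum_cons]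
        linarith
  induction R generalizing B with
  | nil =>
    obtain ⟨L, l1, l2, l3, l4⟩ := key0 (B ++ C) hBC
    exact ⟨L, l1, by simpa using l2, by simpa using l3, by simpa using l4⟩
  | cons y R ih =>
    cases B with
    | nil => simp at hlen
    | cons z B =>
      obtain ⟨L, l1, l2, l3, l4⟩ := ih B
        (fun x hx => hBC x (by rw [List.cons_append]; exact List.mem_cons_of_mem _ hx))
        (fun x hx => hB x (List.mem_cons_of_mem _ hx)) (fun x hx => hR x (List.mem_cons_of_mem _ hx))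
        (by simpa using hlen)
      obtain ⟨N, u⟩ := z
      obtain ⟨k, l⟩ := y
      obtain ⟨u1, u7, u8⟩ := rare_It hh (hBC (N, u) (by simp))
        (hB (N, u) (by simp)) (hR (k, l) (by simp))
      refine ⟨(Multiset.replicate N u + Multiset.replicate k l,
        N * ((u : ℝ) + 1) ^ 2 + k * ((l : ℝ) + 1) ^ 2 + 4 * h,
        N * (u : ℝ) ^ 2 + k * (l : ℝ) ^ 2 - 1) :: L, ?_, ?_, ?_, ?_⟩
      · intro x hx
        rcases List.mem_cons.1 hx with rfl | hx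
        · exact u1
        · exact l1 x hx
      · simp only [List.map_cons, List.sum_cons, List.map_append, List.sum_append,
          List.cons_append] at l2 ⊢
        rw [l2]
        abel
      · simp only [List.map_cons, List.sum_cons, List.map_append, List.sum_append,
          List.cons_append] at l3 ⊢
        linarith
      · simp only [List.map_cons, List.sum_cons, List.map_append, List.sum_append,
          List.cons_append] at l4 ⊢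
        linarith

theorem list_add (R : List (ℕ × ℕ)) (f g : ℕ × ℕ → ℝ) :
    (R.map fun x => f x + g x).sum = (R.map f).sum + (R.map g).sum := by
  induction R with
  | nil => simp
  | cons x R ih => simp only [List.map_cons, List.sum_cons]; rw [ih]; ring

/-- **Job GR-UNITS (GR9).** -/
theorem unitsR : S_UnitsR := by
  intro h V N a R hh hV hR hlen
  obtain ⟨B, C, b1, b2, b3, b4, b5⟩ := Q53.WR.blocks Q53.WR.split V N a hV
  have hpos : 0 < h ^ 2 := by positivity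
  have hRB : R.length ≤ B.length := by
    have h1 : 257 * h ^ 2 * ((R.length : ℝ) + V.card) ≤ 257 * h ^ 2 * ((B.length : ℝ) + V.card) :=
      hlen.trans b5
    have h2 : ((R.length : ℝ) + V.card) ≤ ((B.length : ℝ) + V.card) :=
      le_of_mul_le_mul_left h1 (by positivity)
    have h3 : (R.length : ℝ) ≤ B.length := by linarith
    exact_mod_cast h3
  obtain ⟨L, l1, l2, l3, l4⟩ := attachR B C R hh b1 b2 hR hRB
  have e1 := b4 fun n => ((n : ℝ) + 1) ^ 2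
  have e2 := b4 fun n => ((n : ℝ) + 1) / 2
  have e3 := b4 fun n => (n : ℝ) ^ 2
  simp only [← mul_div_assoc] at e2
  rw [e1, e2] at l3
  rw [e3, e2] at l4
  -- twice the number of conditions
  have hAeq : 2 * (TH2.NU.condM (lf V N a R) : ℝ) =
      ∑ v ∈ V, (N v : ℝ) * (a v * ((a v : ℝ) + 1)) +
        (R.map fun x => (x.1 : ℝ) * (x.2 * ((x.2 : ℝ) + 1))).sum := by
    rw [Q111.WR.condM_lf, Nat.cast_add, Q111.WR.list_cast, Nat.cast_sum, mul_add, Finset.mul_sum,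
      ← Q111.WR.list_mul]
    congr 1
    · refine Finset.sum_congr rfl fun v _ => ?_
      rw [Nat.cast_mul, choose_real]; ring
    · refine congrArg List.sum (List.map_congr_left fun x _ => ?_)
      rw [Nat.cast_mul, choose_real]; ring
  have s1 : ∑ v ∈ V, (N v : ℝ) * ((a v : ℝ) + 1) ^ 2 =
      ∑ v ∈ V, (N v : ℝ) * (a v * ((a v : ℝ) + 1)) + ∑ v ∈ V, (N v : ℝ) * ((a v : ℝ) + 1) := by
    rw [← Finset.sum_add_distrib]
    exact Finset.sum_congr rfl fun v _ => by ring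
  have s2 : ∑ v ∈ V, (N v : ℝ) * ((a v : ℝ) + 1) / 2 =
      1 / 2 * ∑ v ∈ V, (N v : ℝ) * ((a v : ℝ) + 1) := by
    rw [Finset.mul_sum]
    exact Finset.sum_congr rfl fun v _ => by ring
  have s3 : (R.map fun x => (x.1 : ℝ) * ((x.2 : ℝ) + 1) ^ 2).sum =
      (R.map fun x => (x.1 : ℝ) * (x.2 * ((x.2 : ℝ) + 1))).sum +
        (R.map fun x => (x.1 : ℝ) * ((x.2 : ℝ) + 1)).sum := by
    rw [← list_add]
    exact congrArg List.sum (List.map_congr_left fun x _ => by ring)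
  have s4 : ∑ v ∈ V, (N v : ℝ) * (a v * ((a v : ℝ) + 1)) ≤
      ∑ v ∈ V, (N v : ℝ) * (a v : ℝ) ^ 2 + ∑ v ∈ V, (N v : ℝ) * ((a v : ℝ) + 1) := by
    rw [← Finset.sum_add_distrib]
    refine Finset.sum_le_sum fun v _ => ?_
    have : 0 ≤ (N v : ℝ) := by positivity
    nlinarith
  have s5 : (R.map fun x => (x.1 : ℝ) * (x.2 * ((x.2 : ℝ) + 1))).sum ≤
      (R.map fun x => (x.1 : ℝ) * (x.2 : ℝ) ^ 2).sum +
        (R.map fun x => (x.1 : ℝ) * ((x.2 : ℝ) + 1)).sum := by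
    rw [← list_add]
    refine Q111.WR.list_sum_le R _ _ fun x _ => ?_
    have : 0 ≤ (x.1 : ℝ) := by positivity
    nlinarith
  have s6 : 0 ≤ (R.map fun x => (x.1 : ℝ) * (x.2 : ℝ) ^ 2).sum := List.sum_nonneg (by
    intro y hy
    obtain ⟨x, _, rfl⟩ := List.mem_map.mp hy
    positivity)
  have s7 : ∑ v ∈ V, (N v : ℝ) * ((a v : ℝ) + 1) / 2 ≤
      1 / 10 * ∑ v ∈ V, (N v : ℝ) * (a v : ℝ) ^ 2 := by
    rw [Finset.mul_sum]
    refine Finset.sum_le_sum fun v hv => ?_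
    have ha : (16 : ℝ) ≤ a v := by exact_mod_cast (hV v hv).2.1
    have hN : (0 : ℝ) ≤ N v := Nat.cast_nonneg _
    have e4 : ((a v : ℝ) + 1) / 2 ≤ 1 / 10 * (a v : ℝ) ^ 2 := by nlinarith
    have e5 := mul_le_mul_of_nonneg_left e4 hN
    calc (N v : ℝ) * ((a v : ℝ) + 1) / 2 = (N v : ℝ) * (((a v : ℝ) + 1) / 2) := by ring
      _ ≤ N v * (1 / 10 * (a v : ℝ) ^ 2) := e5
      _ = _ := by ring
  refine ⟨L, l1, ?_, ?_, ?_, ?_⟩
  · unfold tM lf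
    rw [l2, b3]
  · unfold tS
    rw [hAeq]
    unfold E0
    rw [s2] at l3
    linarith
  · unfold tE
    rw [hAeq]
    unfold E0
    rw [s2] at l4
    linarith
  · unfold tE
    linarith

end Pool.Agent.Q66.GR
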